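import Pool.Agent.W40.Ch.A10

/-!
Chamberland's real extension `f` of the `3x+1` map: every measurable set that is completely
invariant on `(0,∞)` fills a limiting proportion of the unit intervals `[m, m+1)`, this limit is a
countably additive function of the set with the same null sets as Lebesgue measure on `(1,∞)`, the
basin of every attracting cycle gets positive mass, and if the basins of the two known cycles fill
arbitrarily far unit intervals up to arbitrarily small measure, then there is no further attracting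
cycle and the `3x+1` conjecture holds.

Idea: `f` expands by a factor of order `m` on most of `[m, m+1)`, so that the proportions of an
invariant set are harmonic, up to an error `O(m^(-1/3))`, for a Markov chain on the integers with
negative drift; Lyapunov functions `m^(-1/4)` and `m^(1/2)`, a minorisation condition and a barrier
do the rest.
-/

set_option autoImplicit false

namespace Pool.Agent.Results.MP_a247fa_nt.BasinDensities

open Filter Topology MeasureTheory

/-- Chamberland's map. -/
noncomputable def f (x : ℝ) : ℝ := x + 1 / 4 - (2 * x + 1) / 4 * Real.cos (Real.pi * x)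

/-- The `3x+1` map. -/
def T (n : ℕ) : ℕ := if n % 2 = 0 then n / 2 else (3 * n + 1) / 2

/-- Measurable sets that are completely invariant under `f` on `(0,∞)`. -/
def Invariant (B : Set ℝ) : Prop := MeasurableSet B ∧ ∀ x : ℝ, 0 < x → (x ∈ B ↔ f x ∈ B)

/-- The measure of `B ∩ [m, m+1)` tends to `D` as the integer `m` tends to infinity. -/
def HasDensity (B : Set ℝ) (D : ℝ) : Prop :=
  Tendsto (fun m : ℕ => (volume (B ∩ Set.Ico (m : ℝ) (m + 1))).toReal) atTop (𝓝 D)

/-- Points of attracting cycles contained in `(0,∞)`. -/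
def AttractingPoint (y : ℝ) : Prop :=
  0 < y ∧ 0 < Function.minimalPeriod f y ∧ |deriv (f^[Function.minimalPeriod f y]) y| < 1

/-- The points `x > 0` whose orbit converges to the cycle of `y`. -/
def Basin (y : ℝ) : Set ℝ :=
  {x | 0 < x ∧ ∃ j : ℕ, Tendsto (fun k : ℕ => f^[k * Function.minimalPeriod f y + j] x) atTop (𝓝 y)}

theorem result :
    (∀ B : Set ℝ, Invariant B → ∃ D : ℝ, HasDensity B D ∧
      (D = 0 ↔ volume (B ∩ Set.Ioi 1) = 0) ∧ (D = 1 ↔ volume (Set.Ioi 1 \ B) = 0)) ∧
    (∀ B : ℕ → Set ℝ, (∀ i, Invariant (B i)) → (∀ i j, i ≠ j → Disjoint (B i) (B j)) →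
      ∃ (D : ℕ → ℝ) (s : ℝ), (∀ i, HasDensity (B i) (D i)) ∧ HasSum D s ∧
        HasDensity (⋃ i, B i) s) ∧
    (∀ y : ℝ, AttractingPoint y → Invariant (Basin y) ∧ ∃ D : ℝ, 0 < D ∧ HasDensity (Basin y) D) ∧
    ∃ a : ℝ, 1.19 ≤ a ∧ a ≤ 1.196 ∧ f (f a) = a ∧ AttractingPoint a ∧
      ((∀ ε : ℝ, 0 < ε → ∀ M : ℕ, ∃ m : ℕ, M ≤ m ∧
        1 - ε < (volume ((Basin 1 ∪ Basin a) ∩ Set.Ico (m : ℝ) (m + 1))).toReal) →
        {y : ℝ | AttractingPoint y} = {1, 2, a, f a} ∧ ∀ n : ℕ, 1 ≤ n → ∃ k : ℕ, T^[k] n = 1) := by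
  refine ⟨?_, ?_, ?_, ?_⟩
  · intro B hB
    obtain ⟨D, hD⟩ := Pool.Agent.W40.Ch.dens_exists (B := B) hB
    refine ⟨D, hD, ⟨?_, fun h => Pool.Agent.W40.Ch.dens_zero h hD⟩, ⟨?_, ?_⟩⟩
    · intro h0
      by_contra hne
      have := Pool.Agent.W40.Ch.dens_pos (B := B) hB hne hD
      linarith
    · intro h1
      rw [h1] at hD
      exact Pool.Agent.W40.Ch.full_of_one (U := B) hB hD
    · intro h0
      have h1 : Tendsto (Pool.Agent.W40.Ch.bb B) atTop (𝓝 1) := by
        apply tendsto_const_nhds.congr'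
        filter_upwards [eventually_ge_atTop 2] with k hk
        have h2 : (2 : ℝ) ≤ k := by exact_mod_cast hk
        have h3 : volume (Pool.Agent.W40.Ch.cell k \ B) = 0 := by
          apply measure_mono_null _ h0
          rintro x ⟨hx, hxB⟩
          refine ⟨?_, hxB⟩
          show (1 : ℝ) < x
          linarith [hx.1]
        have h4 := measure_inter_add_sdiff₀ (μ := volume) (Pool.Agent.W40.Ch.cell k)
          hB.1.nullMeasurableSet
        rw [h3, add_zero] at h4
        have h5 := Pool.Agent.W40.Ch.cell_vol k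
        unfold Pool.Agent.W40.Ch.bb Measure.real
        rw [Set.inter_comm, h4]
        exact h5.symm
      exact tendsto_nhds_unique hD h1
  · intro B hB hd
    choose D hD using fun i => Pool.Agent.W40.Ch.dens_exists (B := B i) (hB i)
    obtain ⟨s, hs1, hs2⟩ := Pool.Agent.W40.Ch.dens_sum (B := B) hB (fun i j hij => hd i j hij) hD
    exact ⟨D, s, hD, hs2, hs1⟩
  · intro y hy
    have hinv := Pool.Agent.W40.Ch.basin_inv (y := y) hy.2.1
    obtain ⟨D, hD⟩ := Pool.Agent.W40.Ch.dens_exists hinv
    exact ⟨hinv, D, Pool.Agent.W40.Ch.dens_pos hinv (Pool.Agent.W40.Ch.basin_pos hy) hD, hD⟩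
  · obtain ⟨a, ha, hga⟩ := Pool.Agent.H934R2.Ch.exists_a2
    refine ⟨a, ha.1, ha.2, hga,
      Pool.Agent.H934R2.Ch.known_attr ha hga (Or.inr (Or.inr (Or.inl rfl))), ?_⟩
    intro h
    have hone := Pool.Agent.W40.Ch.one_of_cluster (Pool.Agent.W40.Ch.U_inv ha hga) h
    refine ⟨?_, fun n hn => Pool.Agent.W40.Ch.collatz_of ha hga hone hn⟩
    ext y
    constructor
    · intro hy
      exact Pool.Agent.W40.Ch.known_of_dens ha hga hone hy
    · intro hy
      exact Pool.Agent.H934R2.Ch.known_attr ha hga hy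

end Pool.Agent.Results.MP_a247fa_nt.BasinDensities
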