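import Pool.Agent.W40.Ch.A11

/-!
Chamberland's real extension `f` of the `3x+1` map: for all integers `m, L ≥ 1`, all `x` in
`[m, m+1)` outside a set of measure `3000 L^(-1/4)` have an iterate `f^k(x) < L` with
`k ≤ 75 log m + 1`. The bound for the exceptional measure does not depend on `m`.
-/

set_option autoImplicit false

namespace Pool.Agent.Results.MP_a247fa_nt.LogTimeDescent

open MeasureTheory

/-- Chamberland's map. -/
noncomputable def f (x : ℝ) : ℝ := x + 1 / 4 - (2 * x + 1) / 4 * Real.cos (Real.pi * x)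

theorem result : ∀ L m : ℕ, 1 ≤ L → 1 ≤ m →
    volume {x : ℝ | (m : ℝ) ≤ x ∧ x < m + 1 ∧
      ∀ k : ℕ, (k : ℝ) ≤ 75 * Real.log m + 1 → (L : ℝ) ≤ f^[k] x} ≤
    ENNReal.ofReal (3000 * (L : ℝ) ^ (-(1 / 4) : ℝ)) := by
  intro L m hL hm
  have hm' : (1 : ℝ) ≤ m := by exact_mod_cast hm
  have hlog : 0 ≤ Real.log m := Real.log_nonneg hm'
  have h1 := Pool.Agent.W40.Ch.highT_final L m ⌈75 * Real.log m⌉₊ hL (Nat.le_ceil _)
  have hsub : {x : ℝ | (m : ℝ) ≤ x ∧ x < m + 1 ∧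
      ∀ k : ℕ, (k : ℝ) ≤ 75 * Real.log m + 1 → (L : ℝ) ≤ f^[k] x} ⊆
      Pool.Agent.W40.Ch.HighT L ⌈75 * Real.log m⌉₊ ∩ Pool.Agent.W40.Ch.cell m := by
    rintro x ⟨hx1, hx2, hx3⟩
    refine ⟨fun k hk => hx3 k ?_, hx1, hx2⟩
    have h2 : (k : ℝ) ≤ (⌈75 * Real.log m⌉₊ : ℕ) := by exact_mod_cast hk
    have h3 := Nat.ceil_lt_add_one (a := 75 * Real.log m) (by positivity)
    linarith
  refine (measure_mono hsub).trans ?_
  apply ENNReal.le_ofReal_iff_toReal_le (Pool.Agent.W40.Ch.inter_fin' _ _) _ |>.2 h1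
  positivity

end Pool.Agent.Results.MP_a247fa_nt.LogTimeDescent
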